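import Pool.Agent.Lib.MP_b4345b_gt.Assemble
import Pool.Agent.Lib.MP_b4345b_gt.P37.Data0
import Pool.Agent.Lib.MP_b4345b_gt.P37.Data1
import Pool.Agent.Lib.MP_b4345b_gt.P37.Data2
import Pool.Agent.Lib.MP_b4345b_gt.P37.Data3

namespace Pool.Agent.Lib.MP_b4345b_gt.P37

theorem all0 : ∀ i, i < 0 → ∃ r, recCheck (tab rows) N 37 pts i r = true := by
  intro i hi; omega

theorem all1 : ∀ i, i < 100 → ∃ r, recCheck (tab rows) N 37 pts i r = true :=
  chunk_step all0 ok0 len0

theorem all2 : ∀ i, i < 200 → ∃ r, recCheck (tab rows) N 37 pts i r = true :=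
  chunk_step all1 ok1 len1

theorem all3 : ∀ i, i < 300 → ∃ r, recCheck (tab rows) N 37 pts i r = true :=
  chunk_step all2 ok2 len2

theorem all4 : ∀ i, i < 400 → ∃ r, recCheck (tab rows) N 37 pts i r = true :=
  chunk_step all3 ok3 len3

theorem all5 : ∀ i, i < 500 → ∃ r, recCheck (tab rows) N 37 pts i r = true :=
  chunk_step all4 ok4 len4

theorem all6 : ∀ i, i < 600 → ∃ r, recCheck (tab rows) N 37 pts i r = true :=
  chunk_step all5 ok5 len5

theorem all7 : ∀ i, i < 700 → ∃ r, recCheck (tab rows) N 37 pts i r = true :=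
  chunk_step all6 ok6 len6

theorem all8 : ∀ i, i < 800 → ∃ r, recCheck (tab rows) N 37 pts i r = true :=
  chunk_step all7 ok7 len7

theorem all9 : ∀ i, i < 900 → ∃ r, recCheck (tab rows) N 37 pts i r = true :=
  chunk_step all8 ok8 len8

theorem all10 : ∀ i, i < 1000 → ∃ r, recCheck (tab rows) N 37 pts i r = true :=
  chunk_step all9 ok9 len9

theorem all11 : ∀ i, i < 1100 → ∃ r, recCheck (tab rows) N 37 pts i r = true :=
  chunk_step all10 ok10 len10

theorem all12 : ∀ i, i < 1200 → ∃ r, recCheck (tab rows) N 37 pts i r = true :=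
  chunk_step all11 ok11 len11

theorem all13 : ∀ i, i < 1300 → ∃ r, recCheck (tab rows) N 37 pts i r = true :=
  chunk_step all12 ok12 len12

theorem all14 : ∀ i, i < 1400 → ∃ r, recCheck (tab rows) N 37 pts i r = true :=
  chunk_step all13 ok13 len13

theorem all15 : ∀ i, i < 1500 → ∃ r, recCheck (tab rows) N 37 pts i r = true :=
  chunk_step all14 ok14 len14

theorem all16 : ∀ i, i < 1600 → ∃ r, recCheck (tab rows) N 37 pts i r = true :=
  chunk_step all15 ok15 len15

theorem all17 : ∀ i, i < 1700 → ∃ r, recCheck (tab rows) N 37 pts i r = true :=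
  chunk_step all16 ok16 len16

theorem all18 : ∀ i, i < 1800 → ∃ r, recCheck (tab rows) N 37 pts i r = true :=
  chunk_step all17 ok17 len17

theorem all19 : ∀ i, i < 1900 → ∃ r, recCheck (tab rows) N 37 pts i r = true :=
  chunk_step all18 ok18 len18

theorem all20 : ∀ i, i < 2000 → ∃ r, recCheck (tab rows) N 37 pts i r = true :=
  chunk_step all19 ok19 len19

theorem all21 : ∀ i, i < 2100 → ∃ r, recCheck (tab rows) N 37 pts i r = true :=
  chunk_step all20 ok20 len20

theorem all22 : ∀ i, i < 2200 → ∃ r, recCheck (tab rows) N 37 pts i r = true :=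
  chunk_step all21 ok21 len21

theorem all23 : ∀ i, i < 2300 → ∃ r, recCheck (tab rows) N 37 pts i r = true :=
  chunk_step all22 ok22 len22

theorem all24 : ∀ i, i < 2400 → ∃ r, recCheck (tab rows) N 37 pts i r = true :=
  chunk_step all23 ok23 len23

theorem all25 : ∀ i, i < 2500 → ∃ r, recCheck (tab rows) N 37 pts i r = true :=
  chunk_step all24 ok24 len24

theorem all26 : ∀ i, i < 2600 → ∃ r, recCheck (tab rows) N 37 pts i r = true :=
  chunk_step all25 ok25 len25

theorem all27 : ∀ i, i < 2700 → ∃ r, recCheck (tab rows) N 37 pts i r = true :=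
  chunk_step all26 ok26 len26

theorem all28 : ∀ i, i < 2800 → ∃ r, recCheck (tab rows) N 37 pts i r = true :=
  chunk_step all27 ok27 len27

theorem all29 : ∀ i, i < 2900 → ∃ r, recCheck (tab rows) N 37 pts i r = true :=
  chunk_step all28 ok28 len28

theorem all30 : ∀ i, i < 3000 → ∃ r, recCheck (tab rows) N 37 pts i r = true :=
  chunk_step all29 ok29 len29

theorem all31 : ∀ i, i < 3100 → ∃ r, recCheck (tab rows) N 37 pts i r = true :=
  chunk_step all30 ok30 len30

theorem all32 : ∀ i, i < 3200 → ∃ r, recCheck (tab rows) N 37 pts i r = true :=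
  chunk_step all31 ok31 len31

theorem all33 : ∀ i, i < 3300 → ∃ r, recCheck (tab rows) N 37 pts i r = true :=
  chunk_step all32 ok32 len32

theorem all34 : ∀ i, i < 3400 → ∃ r, recCheck (tab rows) N 37 pts i r = true :=
  chunk_step all33 ok33 len33

theorem all35 : ∀ i, i < 3500 → ∃ r, recCheck (tab rows) N 37 pts i r = true :=
  chunk_step all34 ok34 len34

theorem all36 : ∀ i, i < 3600 → ∃ r, recCheck (tab rows) N 37 pts i r = true :=
  chunk_step all35 ok35 len35

theorem all37 : ∀ i, i < 3700 → ∃ r, recCheck (tab rows) N 37 pts i r = true :=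
  chunk_step all36 ok36 len36

theorem all38 : ∀ i, i < 3800 → ∃ r, recCheck (tab rows) N 37 pts i r = true :=
  chunk_step all37 ok37 len37

theorem all39 : ∀ i, i < 3900 → ∃ r, recCheck (tab rows) N 37 pts i r = true :=
  chunk_step all38 ok38 len38

theorem all40 : ∀ i, i < 4000 → ∃ r, recCheck (tab rows) N 37 pts i r = true :=
  chunk_step all39 ok39 len39

theorem all41 : ∀ i, i < 4100 → ∃ r, recCheck (tab rows) N 37 pts i r = true :=
  chunk_step all40 ok40 len40

theorem all42 : ∀ i, i < 4200 → ∃ r, recCheck (tab rows) N 37 pts i r = true :=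
  chunk_step all41 ok41 len41

theorem all43 : ∀ i, i < 4300 → ∃ r, recCheck (tab rows) N 37 pts i r = true :=
  chunk_step all42 ok42 len42

theorem all44 : ∀ i, i < 4312 → ∃ r, recCheck (tab rows) N 37 pts i r = true :=
  chunk_step all43 ok43 len43

theorem pts_ok : allIdx (fun _ p => ptOK p) pts 0 = true := by decide +kernel

theorem pts_len : pts.length = 37 := by decide +kernel

theorem cov_ok : covCheck (tab rows) N cov = true := by decide +kernel

theorem cov_len : cov.length = 37 := by decide +kernel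

theorem main (s : Setoid (Metric.sphere (0 : EuclideanSpace ℝ (Fin 7)) 1))
    (hs : ∀ x y : Metric.sphere (0 : EuclideanSpace ℝ (Fin 7)) 1, s x y ↔ (y = x ∨ y = -x)) :
    ∃ K : Geometry.SimplicialComplex ℝ (Fin 37 → ℝ), K.faces.Finite ∧
      K.vertices.ncard = 37 ∧ Nonempty (K.space ≃ₜ Quotient s) :=
  exists_triangulation rows N 37 pts pts_len (by norm_num) (by decide)
    (pts_sound pts_ok) all44 (cov_sound cov_ok cov_len) s hs

end Pool.Agent.Lib.MP_b4345b_gt.P37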